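import Pool.Agent.helper58.FI.SpecC

/-!
# Project fi (MP_baa4d7_al), block F, row FCL: Clifford theory with cyclic inertia factor
-/

set_option autoImplicit false

namespace Pool.Agent.FI

open Pool.Agent.helper58.DC Pool.Agent.DI Pool.Agent.GR Pool.Agent.OB Pool.Agent.DR

theorem FCL_le (hIF : IF_stmt) (Γ : Type) [Group Γ] [Finite Γ] (K N : Subgroup Γ) (hKN : K ≤ N) (ψ : Γ → ℂ)
    (hψ : ψ ∈ IrrOn K) : K ≤ stF N ψ := by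
  intro k hk
  refine ⟨hKN hk, ?_⟩
  funext x
  have h1 := ((hIF Γ K).2 ψ hψ).2.1 k⁻¹ (K.inv_mem hk) x
  change ψ ((MulAut.conj k)⁻¹ x) = ψ x
  rw [MulAut.conj_inv_apply]
  rw [inv_inv] at h1
  exact h1

theorem FCL (hFCE : FCE_stmt) (hCFB : CFB_stmt) (hCCJ : CCJ_stmt) (hIF : IF_stmt) : FCL_stmt := by
  intro Γ _ _ K N hKN hN ψ hψ hcy
  have hKS : K ≤ stF N ψ := FCL_le hIF Γ K N hKN ψ hψ
  have hSN : stF N ψ ≤ N := fun _ h => h.1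
  have hinv : ∀ s ∈ stF N ψ, cjF s ψ = ψ := fun s hs => hs.2
  obtain ⟨f1, f2⟩ := hFCE Γ K (stF N ψ) hKS (hSN.trans hN) hcy ψ hψ hinv
  obtain ⟨c1, c2, c3⟩ := hCFB Γ K N hKN hN ψ hψ
  have he : ∀ φ ∈ IrrOn N, ∀ e : ℕ, 0 < e → OverE K N φ ψ e → ∃ φ₀ ∈ IrrOn (stF N ψ),
      (∀ x ∈ K, φ₀ x = ψ x) ∧ indf N (stF N ψ) φ₀ = φ ∧ e = 1 := by
    intro φ hφ e he0 ho
    obtain ⟨φ₀, h0, h1, h2⟩ := c3 φ hφ e he0 ho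
    have h3 := f2 φ₀ h0 e he0 h1
    refine ⟨φ₀, h0, fun x hx => ?_, h2, h3⟩
    rw [h1 x hx, h3, Nat.cast_one, one_mul]
  have hone : ∀ φ₀ : Γ → ℂ, (∀ x ∈ K, φ₀ x = ψ x) → ∀ x ∈ K, φ₀ x = ((1 : ℕ) : ℂ) * ψ x := by
    intro φ₀ h x hx
    rw [Nat.cast_one, one_mul, h x hx]
  constructor
  · have himg : {φ : Γ → ℂ | φ ∈ IrrOn N ∧ ∃ e : ℕ, 0 < e ∧ OverE K N φ ψ e} =
        (fun φ₀ => indf N (stF N ψ) φ₀) '' {φ : Γ → ℂ | φ ∈ IrrOn (stF N ψ) ∧ ∀ x ∈ K, φ x = ψ x} := by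
      ext φ
      constructor
      · rintro ⟨h1, e, h2, h3⟩
        obtain ⟨φ₀, g1, g2, g3, -⟩ := he φ h1 e h2 h3
        exact ⟨φ₀, ⟨g1, g2⟩, g3⟩
      · rintro ⟨φ₀, ⟨g1, g2⟩, rfl⟩
        obtain ⟨a1, a2, -⟩ := c1 φ₀ g1 1 (hone φ₀ g2)
        exact ⟨a1, 1, Nat.one_pos, a2⟩
    rw [himg, Set.ncard_image_of_injOn]
    · exact f1
    · rintro φ₀ ⟨g1, g2⟩ φ₁ ⟨g3, g4⟩ h
      exact c2 φ₀ g1 φ₁ g3 1 1 (hone φ₀ g2) (hone φ₁ g4) h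
  · intro φ hφ e he0 ho
    obtain ⟨φ₀, -, -, -, h1⟩ := he φ hφ e he0 ho
    have h2 := (hCCJ Γ K N hN ψ hψ).2.2.2 φ e ho
    rw [h1, Nat.cast_one, one_mul] at h2
    exact h2

end Pool.Agent.FI
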